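import Mathlib

set_option autoImplicit false

namespace Pool.Agent.Results.MP_89824e_co.PX

abbrev V := ZMod 5 × ZMod 2 × ZMod 2

def A (u v : V) : Prop := v.1 = u.1 + 1 ∧ v.2.1 = u.2.2

instance : DecidableRel A := fun _ _ => inferInstanceAs (Decidable (_ ∧ _))

def T (k : ZMod 5) (t : ZMod 5 → ZMod 2) (v : V) : V := (v.1 + k, v.2.1 + t v.1, v.2.2 + t (v.1 + 1))

lemma form (φ : V → V) (hi : Function.Injective φ) (h : ∀ u v, A u v → A (φ u) (φ v)) :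
    ∃ k t, ∀ v, φ v = T k t v := by
  have h1 : ∀ i x y z, (φ (i + 1, y, z)).1 = (φ (i, x, y)).1 + 1 :=
    fun i x y z => (h (i, x, y) (i + 1, y, z) ⟨rfl, rfl⟩).1
  have h2 : ∀ i x y z, (φ (i + 1, y, z)).2.1 = (φ (i, x, y)).2.2 :=
    fun i x y z => (h (i, x, y) (i + 1, y, z) ⟨rfl, rfl⟩).2
  have h3 : ∀ i x y, (φ (i, x, y)).1 = (φ (i, 0, 0)).1 := fun i x y => by
    have a := h1 i x y 0
    have b := h1 (i + 1) y 0 0
    have c := h1 i 0 0 0
    have d := h1 (i + 1) 0 0 0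
    rw [a] at b; rw [c, b] at d
    simpa using d
  have h4 : ∀ n : ℕ, (φ (n, 0, 0)).1 = n + (φ (0, 0, 0)).1 := fun n => by
    induction n with
    | zero => simp
    | succ n ih => push_cast; rw [h1 n 0 0 0, ih]; ring
  have h5 : ∀ i x y, (φ (i, x, y)).2.1 = (φ (i, x, 0)).2.1 := fun i x y => by
    have a := h2 (i - 1) 0 x y
    have b := h2 (i - 1) 0 x 0
    rw [sub_add_cancel] at a b
    rw [a, b]
  have h6 : ∀ i x, (φ (i, x, 0)).2.1 = x + (φ (i, 0, 0)).2.1 := fun i x => by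
    have : (φ (i, 1, 0)).2.1 ≠ (φ (i, 0, 0)).2.1 := fun e => by
      have : φ (i, 1, 0) = φ (i, 0, 0) :=
        Prod.ext (h3 _ _ _) (Prod.ext e (by rw [← h2 i 1 0 0, ← h2 i 0 0 0]))
      simpa using hi this
    revert this
    generalize hb : (φ (i, 0, 0)).2.1 = b
    have : x = 0 ∨ x = 1 := by revert x; decide
    rcases this with rfl | rfl
    · simp [hb]
    · generalize (φ (i, 1, 0)).2.1 = a
      clear hb
      revert a b; decide
  refine ⟨(φ (0, 0, 0)).1, fun i => (φ (i, 0, 0)).2.1, fun ⟨i, x, y⟩ => Prod.ext ?_ (Prod.ext ?_ ?_)⟩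
  · rw [h3, ← ZMod.natCast_zmod_val i, h4]; rfl
  · rw [h5, h6]; rfl
  · rw [← h2 i x y 0, h6]; rfl

def b0 : ZMod 5 → ZMod 2 := ![1, 1, 0, 0, 0]

def sh (t : ZMod 5 → ZMod 2) : ZMod 5 → ZMod 2 := fun i => t (i - 1)

lemma fin (N : Set (ZMod 5 → ZMod 2)) (h1 : ∀ s ∈ N, ∀ t ∈ N, s + t ∈ N) (h2 : ∀ t ∈ N, sh t ∈ N)
    (t : ZMod 5 → ZMod 2) (ht : t ∈ N) (h : t 0 ≠ t 1) (i : ZMod 5) : ∃ a ∈ N, ∃ b ∈ N,
      a i = 0 ∧ a (i + 1) = 0 ∧ b i = 0 ∧ b (i + 1) = 0 ∧ a ≠ 0 ∧ b ≠ 0 ∧ a ≠ b := by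
  have hs : ∀ n : ℕ, sh^[n] t ∈ N := fun n => by
    induction n with
    | zero => exact ht
    | succ n ih => rw [Function.iterate_succ_apply']; exact h2 _ ih
  have hl : ∀ l : List ℕ, (l.map fun n => sh^[n] t).sum ∈ N := fun l => by
    induction l with
    | nil => have := h1 t ht t ht; rwa [CharTwo.add_self_eq_zero] at this
    | cons n l ih => exact h1 _ (hs n) _ ih
  have key : ∀ t : ZMod 5 → ZMod 2, t 0 ≠ t 1 → ∃ l ∈ [0, 1, 2, 3, 4].sublists,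
      (l.map fun n => sh^[n] t).sum = b0 := by decide +kernel
  obtain ⟨l, -, e⟩ := key t h
  have h3 := e ▸ hl l
  have h4 := h2 _ h3
  have h5 := h2 _ h4
  have h6 := h2 _ h5
  have h7 := h2 _ h6
  fin_cases i
  · exact ⟨_, h5, _, h6, by decide⟩
  · exact ⟨_, h6, _, h7, by decide⟩
  · exact ⟨_, h7, _, h3, by decide⟩
  · exact ⟨_, h3, _, h4, by decide⟩
  · exact ⟨_, h4, _, h5, by decide⟩

theorem result : ∃ (V : Type) (_ : Fintype V) (A : V → V → Prop), (∀ v, ¬ A v v) ∧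
    (∀ v, {w | A v w}.ncard = 2) ∧
    (∀ u v, ∃ φ : V ≃ V, (∀ x y, A (φ x) (φ y) ↔ A x y) ∧ φ u = v) ∧
    ∀ (G : Type) [Group G] [Finite G] (H : Subgroup G) (S : Set G) (e : G ⧸ H ≃ V),
      (∀ g g' : G, A (e g) (e g') ↔ ∃ h₁ ∈ H, ∃ s ∈ S, ∃ h₂ ∈ H, g⁻¹ * g' = h₁ * s * h₂) →
      2 < Nat.card H := by
  refine ⟨V, inferInstance, A, by decide, fun v => ?_, fun u v => ?_, fun G _ _ H S e h => ?_⟩
  · rw [Set.ncard_eq_toFinset_card']; revert v; decide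
  · let t : ZMod 5 → ZMod 2 := fun i => if i = u.1 then v.2.1 - u.2.1 else v.2.2 - u.2.2
    refine ⟨Equiv.ofBijective (T (v.1 - u.1) t) (Finite.injective_iff_bijective.mp ?_), ?_, ?_⟩
    · rintro ⟨i, x, y⟩ ⟨j, z, w⟩ h
      simp only [T, Prod.mk.injEq, add_left_inj] at h
      obtain ⟨rfl, h⟩ := h
      simpa using h
    · rintro ⟨i, x, y⟩ ⟨j, z, w⟩
      simp only [A, T, Equiv.ofBijective_apply, add_right_comm i _ 1, add_left_inj]
      exact and_congr_right (by rintro rfl; simp)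
    · have : (1 : ZMod 5) ≠ 0 := by decide
      simp [T, t, this]
  let φ : G → V → V := fun g v => e (g • e.symm v)
  have hm : ∀ a b v, φ (a * b) v = φ a (φ b v) := fun a b v => by simp [φ, mul_smul]
  have hi : ∀ g, Function.Injective (φ g) := fun g =>
    e.injective.comp ((MulAction.injective g).comp e.symm.injective)
  have hf : ∀ g, ∃ k t, ∀ v, φ g v = T k t v := fun g => form _ (hi g) fun u v huv => by
    obtain ⟨a, rfl⟩ := (e.surjective.comp QuotientGroup.mk_surjective) u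
    obtain ⟨b, rfl⟩ := (e.surjective.comp QuotientGroup.mk_surjective) v
    simp only [φ, Function.comp, Equiv.symm_apply_apply, MulAction.Quotient.smul_mk, smul_eq_mul]
      at huv ⊢
    rw [h] at huv ⊢
    simpa [mul_assoc] using huv
  have ht : ∀ u v, ∃ g, φ g u = v := fun u v => by
    obtain ⟨g, hg⟩ := MulAction.exists_smul_eq G (e.symm u) (e.symm v)
    exact ⟨g, by simp [φ, hg]⟩
  obtain ⟨g, hg⟩ := ht (0, 0, 0) (0, 1, 0)
  obtain ⟨k, t, h1⟩ := hf g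
  obtain ⟨a, ha⟩ := ht (0, 0, 0) (1, 0, 0)
  obtain ⟨k', u, h2⟩ := hf a
  simp only [h1, h2, T, Prod.mk.injEq, zero_add] at hg ha
  obtain ⟨rfl, hg1, hg2⟩ := hg
  obtain ⟨rfl, -⟩ := ha
  refine (fin {t | ∃ g, ∀ v, φ g v = T 0 t v} ?_ ?_ t ⟨g, h1⟩ (by rw [hg1, hg2]; decide)
    (e (1 : G)).1).elim ?_
  rotate_right
  · rintro p ⟨⟨gp, p0⟩, q, ⟨gq, q0⟩, p1, p2, q1, q2, n1, n2, n3⟩
    have hT : ∀ s t, (∀ v, T 0 s v = T 0 t v) → s = t := fun s t h => funext fun i => by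
      simpa [T] using congrArg (·.2.1) (h (i, 0, 0))
    have hH : ∀ g t, (∀ v, φ g v = T 0 t v) → t (e (1 : G)).1 = 0 → t ((e (1 : G)).1 + 1) = 0 →
        g ∈ H := fun g t h a b => by
      have := h (e (1 : G))
      simp only [φ, T, a, b, add_zero, Equiv.symm_apply_apply, Prod.mk.eta, e.apply_eq_iff_eq,
        MulAction.Quotient.smul_mk, smul_eq_mul, mul_one] at this
      simpa using QuotientGroup.eq.mp this
    have o0 : ∀ v, φ 1 v = T 0 0 v := fun v => by simp [φ, T]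
    have := Fintype.ofFinite H
    rw [Nat.card_eq_fintype_card, Fintype.two_lt_card_iff]
    refine ⟨⟨gp, hH _ _ p0 p1 p2⟩, ⟨gq, hH _ _ q0 q1 q2⟩, 1, fun e => n3 (hT _ _ fun v => ?_),
      fun e => n1 (hT _ _ fun v => ?_), fun e => n2 (hT _ _ fun v => ?_)⟩
    · rw [← p0, ← q0, Subtype.mk.inj e]
    · rw [← p0, ← o0, show gp = 1 from congrArg Subtype.val e]
    · rw [← q0, ← o0, show gq = 1 from congrArg Subtype.val e]
  · rintro s ⟨a, ha⟩ t ⟨b, hb⟩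
    exact ⟨b * a, fun v => by simp [hm, ha, hb, T, add_assoc]⟩
  · rintro t ⟨b, hb⟩
    refine ⟨a * b * a⁻¹, fun v => ?_⟩
    obtain ⟨v, rfl⟩ := Finite.injective_iff_surjective.mp (hi a) v
    rw [← hm, inv_mul_cancel_right, hm, hb, h2, h2]
    simp [T, sh, add_right_comm]

end Pool.Agent.Results.MP_89824e_co.PX
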